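import Mathlib
import Pool.Agent.R139.LpmMso

/-!
# Lattice path matroids are characterised by a sentence of `MS₀`
-/

set_option autoImplicit false

namespace Pool.Agent.Results.MP_b5ca43_co.Definable

open Set Pool.Agent.R139.Lpm

universe u

variable {α : Type u}

/-- Satisfaction is unchanged when the matroid is viewed as a matroid on the subtype of its ground
set. -/
theorem sat_restrict (M : Matroid α) : ∀ {k : ℕ} (φ : Form k) (v : Fin k → Set α),
    (∀ i, v i ⊆ M.E) →
    (Sat M φ v ↔ Sat (M.restrictSubtype M.E) φ fun i => (Subtype.val ⁻¹' (v i) : Set M.E)) := by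
  intro k φ
  induction φ with
  | ind i =>
    intro v hv
    rw [sat_ind, sat_ind, Matroid.restrictSubtype_indep_iff, Subtype.image_preimage_coe,
      Set.inter_eq_self_of_subset_right (hv i)]
  | sub i j =>
    intro v hv
    rw [sat_sub, sat_sub]
    constructor
    · exact fun h => Set.preimage_mono h
    · intro h z hz
      exact h (show (⟨z, hv i hz⟩ : M.E) ∈ Subtype.val ⁻¹' v i from hz)
  | neg φ ih =>
    intro v hv
    rw [sat_neg, sat_neg, ih v hv]
  | and φ ψ ih1 ih2 =>
    intro v hv
    rw [sat_and, sat_and, ih1 v hv, ih2 v hv]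
  | or φ ψ ih1 ih2 =>
    intro v hv
    rw [sat_or, sat_or, ih1 v hv, ih2 v hv]
  | imp φ ψ ih1 ih2 =>
    intro v hv
    rw [sat_imp, sat_imp, ih1 v hv, ih2 v hv]
  | @ex k φ ih =>
    intro v hv
    have hcons : ∀ X : Set α, (fun i => (Subtype.val ⁻¹' (Matrix.vecCons X v i) : Set M.E)) =
        Matrix.vecCons (Subtype.val ⁻¹' X) (fun i => (Subtype.val ⁻¹' (v i) : Set M.E)) := by
      intro X
      funext i
      refine Fin.cases ?_ (fun i => ?_) i
      · rfl
      · rfl
    have hsub : ∀ X : Set α, X ⊆ M.E → ∀ i, Matrix.vecCons X v i ⊆ M.E := by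
      intro X hX i
      refine Fin.cases ?_ (fun i => ?_) i
      · exact hX
      · exact hv i
    rw [Sat, Sat]
    constructor
    · rintro ⟨X, hX, h⟩
      refine ⟨Subtype.val ⁻¹' X, by rw [Matroid.restrictSubtype_ground]; exact Set.subset_univ _, ?_⟩
      rw [ih _ (hsub X hX), hcons] at h
      exact h
    · rintro ⟨X, -, h⟩
      have hX : (Subtype.val '' X : Set α) ⊆ M.E := Subtype.coe_image_subset _ _
      refine ⟨Subtype.val '' X, hX, ?_⟩
      rw [ih _ (hsub _ hX), hcons, Set.preimage_image_eq _ Subtype.val_injective]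
      exact h
  | @all k φ ih =>
    intro v hv
    have hcons : ∀ X : Set α, (fun i => (Subtype.val ⁻¹' (Matrix.vecCons X v i) : Set M.E)) =
        Matrix.vecCons (Subtype.val ⁻¹' X) (fun i => (Subtype.val ⁻¹' (v i) : Set M.E)) := by
      intro X
      funext i
      refine Fin.cases ?_ (fun i => ?_) i
      · rfl
      · rfl
    have hsub : ∀ X : Set α, X ⊆ M.E → ∀ i, Matrix.vecCons X v i ⊆ M.E := by
      intro X hX i
      refine Fin.cases ?_ (fun i => ?_) i
      · exact hX
      · exact hv i
    rw [Sat, Sat]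
    constructor
    · intro h X _
      have hX : (Subtype.val '' X : Set α) ⊆ M.E := Subtype.coe_image_subset _ _
      have h1 := h _ hX
      rw [ih _ (hsub _ hX), hcons, Set.preimage_image_eq _ Subtype.val_injective] at h1
      exact h1
    · intro h X hX
      rw [ih _ (hsub X hX), hcons]
      exact h _ (by rw [Matroid.restrictSubtype_ground]; exact Set.subset_univ _)

theorem lpm_restrict (M : Matroid α) :
    IsLatticePathMatroid (M.restrictSubtype M.E) ↔ IsLatticePathMatroid M := by
  constructor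
  · rintro ⟨m, r, n, P, Q, hP, hQ, hPQ, e, hB⟩
    let e' : Fin n ≃ M.E := e.trans ((Equiv.setCongr Matroid.restrictSubtype_ground).trans
      (Equiv.Set.univ _))
    have he' : ∀ i, e' i = (e i : M.E) := fun i => rfl
    refine ⟨m, r, n, P, Q, hP, hQ, hPQ, e', fun B => ?_⟩
    constructor
    · intro h
      have h1 : B = Subtype.val '' (Subtype.val ⁻¹' B : Set M.E) := by
        rw [Subtype.image_preimage_coe, Set.inter_eq_self_of_subset_right h.subset_ground]
      rw [h1, ← Matroid.restrictSubtype_ground_isBase_iff, hB] at h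
      obtain ⟨R, h2, h3, h4, h5⟩ := h
      refine ⟨R, h2, h3, h4, ?_⟩
      rw [h1, h5]
      ext z
      constructor
      · rintro ⟨_, ⟨i, hi, rfl⟩, rfl⟩
        exact ⟨i, hi, rfl⟩
      · rintro ⟨i, hi, rfl⟩
        exact ⟨_, ⟨i, hi, rfl⟩, rfl⟩
    · rintro ⟨R, h2, h3, h4, rfl⟩
      have h5 := (hB {x | ∃ i, R i = true ∧ (e i : M.E) = x}).2 ⟨R, h2, h3, h4, rfl⟩
      rw [Matroid.restrictSubtype_ground_isBase_iff] at h5
      convert h5 using 1
      ext z
      constructor
      · rintro ⟨i, hi, rfl⟩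
        exact ⟨_, ⟨i, hi, rfl⟩, rfl⟩
      · rintro ⟨_, ⟨i, hi, rfl⟩, rfl⟩
        exact ⟨i, hi, rfl⟩
  · rintro ⟨m, r, n, P, Q, hP, hQ, hPQ, e, hB⟩
    let e' : Fin n ≃ (M.restrictSubtype M.E).E :=
      e.trans ((Equiv.Set.univ _).symm.trans
        (Equiv.setCongr Matroid.restrictSubtype_ground.symm))
    have he' : ∀ i, (e' i : M.E) = e i := fun i => rfl
    refine ⟨m, r, n, P, Q, hP, hQ, hPQ, e', fun B => ?_⟩
    rw [Matroid.restrictSubtype_ground_isBase_iff, hB]
    constructor
    · rintro ⟨R, h2, h3, h4, h5⟩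
      refine ⟨R, h2, h3, h4, ?_⟩
      ext z
      constructor
      · intro hz
        have h6 : (z : α) ∈ {x | ∃ i, R i = true ∧ (e i : α) = x} := by
          rw [← h5]
          exact ⟨z, hz, rfl⟩
        obtain ⟨i, hi, hiz⟩ := h6
        exact ⟨i, hi, by rw [he']; exact Subtype.ext hiz⟩
      · rintro ⟨i, hi, rfl⟩
        rw [he']
        have h6 : (e i : α) ∈ (Subtype.val '' B : Set α) := by
          rw [h5]
          exact ⟨i, hi, rfl⟩
        obtain ⟨w, hw, hwe⟩ := h6
        rw [← Subtype.ext hwe]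
        exact hw
    · rintro ⟨R, h2, h3, h4, rfl⟩
      refine ⟨R, h2, h3, h4, ?_⟩
      ext z
      constructor
      · rintro ⟨_, ⟨i, hi, rfl⟩, rfl⟩
        exact ⟨i, hi, by rw [he']⟩
      · rintro ⟨i, hi, rfl⟩
        exact ⟨e i, ⟨i, hi, he' i⟩, rfl⟩

/-- The class of lattice path matroids is characterised by a sentence of the monadic second-order
logic `MS₀`. -/
theorem result : ∃ φ : Form 0, ∀ (α : Type u) (M : Matroid α), M.Finite →
    (Sat M φ ![] ↔ IsLatticePathMatroid M) := by
  refine ⟨sentence, fun α M hM => ?_⟩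
  have hfin : Finite M.E := hM.ground_finite
  rw [sat_restrict M sentence ![] (fun i => i.elim0),
    sat_iff Matroid.restrictSubtype_ground, lpm_restrict]

end Pool.Agent.Results.MP_b5ca43_co.Definable
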